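import Pool.Agent.K3h35.NX.Stm
import Pool.Agent.K3h3.GAH.T1
import Pool.Agent.K3h22.LogPot

/-!
# Brick X5: the virial identity for the logarithmic potential
-/

set_option autoImplicit false
open MeasureTheory Filter Topology Set Metric

namespace Pool.Agent.K3h85.NX

open Pool.Agent.H314.Dir Pool.Agent.K3h35.GS Pool.Agent.K3h35.NX

theorem radial_int : ∫ y in Ioi (0 : ℝ), y * (max 0 (1 - y ^ 2)) ^ 3 = 1 / 8 := by
  have h : ∀ t : ℝ, HasDerivAt (fun t : ℝ => -(max 0 (1 - t ^ 2)) ^ 4 / 8)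
      (t * (max 0 (1 - t ^ 2)) ^ 3) t := by
    intro t
    have h1 := (hasDerivAt_maxpow 2 (1 - t ^ 2)).comp t
      (((hasDerivAt_id t).pow 2).const_sub 1)
    have h2 := (h1.neg).div_const 8
    refine h2.congr_deriv ?_
    simp
    ring
  have key := integral_Ioi_of_hasDerivAt_of_nonneg' (a := (0 : ℝ)) (l := 0)
    (g := fun t : ℝ => -(max 0 (1 - t ^ 2)) ^ 4 / 8) (g' := fun t => t * (max 0 (1 - t ^ 2)) ^ 3)
    (fun t _ => h t) (fun t ht => by
      have : (0 : ℝ) < t := ht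
      positivity) ?_
  · rw [key]; norm_num
  · refine tendsto_const_nhds.congr' ?_
    filter_upwards [eventually_ge_atTop (1 : ℝ)] with t ht
    rw [max_eq_left (by nlinarith)]
    norm_num

theorem cst_two : cst 2 = Real.pi / 4 := by
  have h := integral_fun_norm_addHaar (volume : Measure (Eu 2)) (fun r : ℝ => (max 0 (1 - r ^ 2)) ^ 3)
  have h1 : cst 2 = ∫ y : Eu 2, (fun r : ℝ => (max 0 (1 - r ^ 2)) ^ 3) ‖y‖ := rfl
  rw [h1, h, finrank_euclideanSpace, Fintype.card_fin]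
  have h2 : (volume : Measure (Eu 2)).real (ball 0 1) = Real.pi := by
    rw [Measure.real, InnerProductSpace.volume_ball_of_dim_even (k := 1) (by simp)]
    simp [ENNReal.toReal_ofReal Real.pi_nonneg]
  have h3 : ∫ y in Ioi (0 : ℝ), y ^ (2 - 1) • (max 0 (1 - y ^ 2)) ^ 3 = 1 / 8 := by
    simpa using radial_int
  rw [h2, h3]
  simp
  ring

theorem sig_zero : sig (0 : Eu 2) = 1 / (2 * Real.pi) := by
  rw [sig, cst_two]
  simp
  ring

/-- the kernel of the radial derivative -/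
noncomputable def q (s : ℝ) (w : Eu 2) : ℝ := s⁻¹ * (rho (s⁻¹ • w) * ‖s⁻¹ • w‖ ^ 2)

theorem q_nonneg {s : ℝ} (hs : 0 < s) (w : Eu 2) : 0 ≤ q s w := by
  have := rho_nonneg (s⁻¹ • w)
  rw [q]; positivity

theorem q_hasDerivAt {s : ℝ} (hs : 0 < s) (w : Eu 2) :
    HasDerivAt (fun s : ℝ => sig (s⁻¹ • w)) (q s w) s := by
  have h1 : HasDerivAt (fun s : ℝ => s⁻¹ • w) (-(s ^ 2)⁻¹ • w) s := (hasDerivAt_inv hs.ne').smul_const w
  have h2 := (hasFDerivAt_sig (s⁻¹ • w)).comp_hasDerivAt s h1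
  refine h2.congr_deriv ?_
  rw [q]
  simp only [_root_.smul_apply, innerSL_apply_apply, smul_eq_mul, inner_smul_left,
    inner_smul_right, real_inner_self_eq_norm_sq, norm_smul, mul_pow]
  simp
  ring

theorem q_zero_of_le {s : ℝ} (hs : 0 < s) {w : Eu 2} (h : s ≤ ‖w‖) : q s w = 0 := by
  rw [q, rho_eq_zero, zero_mul, mul_zero]
  rw [norm_smul, norm_inv, Real.norm_of_nonneg hs.le, ← div_eq_inv_mul, one_le_div hs]
  exact h

theorem q_w_zero (s : ℝ) : q s 0 = 0 := by simp [q]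

theorem tendsto_sig (w : Eu 2) : Tendsto (fun s : ℝ => sig (s⁻¹ • w)) atTop (𝓝 (sig (0 : Eu 2))) := by
  have h1 : Tendsto (fun s : ℝ => s⁻¹ • w) atTop (𝓝 ((0 : ℝ) • w)) :=
    tendsto_inv_atTop_zero.smul_const w
  rw [zero_smul] at h1
  exact ((contDiff_sig (d := 2)).continuous.tendsto 0).comp h1

theorem q_integrableOn (w : Eu 2) : IntegrableOn (fun s => q s w) (Ioi 0) := by
  rcases eq_or_ne w 0 with rfl | hw
  · simp only [q_w_zero]
    exact integrableOn_zero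
  have hw0 : 0 < ‖w‖ := norm_pos_iff.2 hw
  have h1 : IntegrableOn (fun s => q s w) (Ioi ‖w‖) :=
    integrableOn_Ioi_deriv_of_nonneg' (fun s hs => q_hasDerivAt (hw0.trans_le hs) w)
      (fun s hs => q_nonneg (hw0.trans hs) w) (tendsto_sig w)
  have h2 : IntegrableOn (fun s => q s w) (Ioc 0 ‖w‖) :=
    integrableOn_zero.congr_fun (fun s hs => (q_zero_of_le hs.1 hs.2).symm) measurableSet_Ioc
  rw [← Ioc_union_Ioi_eq_Ioi hw0.le]
  exact h2.union h1

theorem q_integral {w : Eu 2} (hw : w ≠ 0) : ∫ s in Ioi (0 : ℝ), q s w = sig (0 : Eu 2) := by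
  have hw0 : 0 < ‖w‖ := norm_pos_iff.2 hw
  have h1 : ∫ s in Ioi ‖w‖, q s w = sig (0 : Eu 2) - sig (‖w‖⁻¹ • w) :=
    integral_Ioi_of_hasDerivAt_of_nonneg' (fun s hs => q_hasDerivAt (hw0.trans_le hs) w)
      (fun s hs => q_nonneg (hw0.trans hs) w) (tendsto_sig w)
  have h2 : sig (‖w‖⁻¹ • w) = 0 := by
    apply sig_eq_zero
    rw [norm_smul, norm_inv, norm_norm, inv_mul_cancel₀ hw0.ne']
  have h3 : ∫ s in Ioi (0 : ℝ), q s w = ∫ s in Ioi ‖w‖, q s w := by
    refine setIntegral_eq_of_subset_of_forall_sdiff_eq_zero measurableSet_Ioi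
      (Ioi_subset_Ioi hw0.le) (fun s hs => ?_)
    simp only [Set.mem_sdiff, mem_Ioi, not_lt] at hs
    exact q_zero_of_le hs.1 hs.2
  rw [h3, h1, h2, sub_zero]

theorem measurable_q : Measurable (fun p : (Eu 2 × Eu 2) × ℝ => q p.2 (p.1.2 - p.1.1)) := by
  have h1 : Measurable (fun p : (Eu 2 × Eu 2) × ℝ => (p.2)⁻¹ • (p.1.2 - p.1.1)) := by fun_prop
  have h2 : Measurable (rho : Eu 2 → ℝ) := (contDiff_rho (d := 2)).continuous.measurable
  unfold q
  exact (measurable_snd.inv).mul ((h2.comp h1).mul (h1.norm.pow_const 2))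

/-- decay classes -/
theorem integrable_dec2 : Integrable (fun x : Eu 2 => ((1 + ‖x‖ ^ 2) ^ 2)⁻¹) := by
  have h := integrable_rpow_neg_one_add_norm_sq (E := Eu 2) (μ := volume) (r := 4) (by simp; norm_num)
  refine h.congr (Eventually.of_forall fun x => ?_)
  have : (0 : ℝ) < 1 + ‖x‖ ^ 2 := by positivity
  simp only
  rw [show (-4 / 2 : ℝ) = -((2 : ℕ) : ℝ) by norm_num, Real.rpow_neg this.le, Real.rpow_natCast]

theorem integrable_dec1 : Integrable (fun x : Eu 2 => ‖x‖ * ((1 + ‖x‖ ^ 2) ^ 2)⁻¹) := by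
  have h := integrable_rpow_neg_one_add_norm_sq (E := Eu 2) (μ := volume) (r := 3) (by simp; norm_num)
  refine h.mono' ?_ (Eventually.of_forall fun x => ?_)
  · have hc : Continuous (fun x : Eu 2 => ‖x‖ * ((1 + ‖x‖ ^ 2) ^ 2)⁻¹) := by
      refine continuous_norm.mul (Continuous.inv₀ (by fun_prop) (fun x => by positivity))
    exact hc.aestronglyMeasurable
  · have h0 : (0 : ℝ) < 1 + ‖x‖ ^ 2 := by positivity
    rw [Real.norm_of_nonneg (by positivity)]
    have h1 : ‖x‖ ≤ (1 + ‖x‖ ^ 2) ^ (1 / 2 : ℝ) := by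
      rw [← Real.sqrt_eq_rpow]
      exact Real.le_sqrt_of_sq_le (by linarith)
    have h2 : ((1 + ‖x‖ ^ 2) ^ 2)⁻¹ = (1 + ‖x‖ ^ 2) ^ (-2 : ℝ) := by
      rw [Real.rpow_neg h0.le, Real.rpow_ofNat]
    rw [h2]
    calc ‖x‖ * (1 + ‖x‖ ^ 2) ^ (-2 : ℝ) ≤ (1 + ‖x‖ ^ 2) ^ (1 / 2 : ℝ) * (1 + ‖x‖ ^ 2) ^ (-2 : ℝ) :=
          mul_le_mul_of_nonneg_right h1 (by positivity)
      _ = (1 + ‖x‖ ^ 2) ^ (-3 / 2 : ℝ) := by
          rw [← Real.rpow_add h0]; norm_num

variable {f : Eu 2 → ℝ} {C : ℝ}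

theorem decC (hb : ∀ x, |f x| ≤ C * ((1 + ‖x‖ ^ 2) ^ 2)⁻¹) : 0 ≤ C := by
  have := (abs_nonneg _).trans (hb 0)
  simpa using this

theorem integrable_f (hf : Continuous f) (hb : ∀ x, |f x| ≤ C * ((1 + ‖x‖ ^ 2) ^ 2)⁻¹) :
    Integrable f :=
  (integrable_dec2.const_mul C).mono' hf.aestronglyMeasurable (Eventually.of_forall fun x => hb x)

theorem integrable_xf (hf : Continuous f) (hb : ∀ x, |f x| ≤ C * ((1 + ‖x‖ ^ 2) ^ 2)⁻¹) :
    Integrable (fun x => |f x| * ‖x‖) := by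
  refine (integrable_dec1.const_mul C).mono' (hf.abs.mul continuous_norm).aestronglyMeasurable
    (Eventually.of_forall fun x => ?_)
  rw [Real.norm_of_nonneg (by positivity)]
  calc |f x| * ‖x‖ ≤ (C * ((1 + ‖x‖ ^ 2) ^ 2)⁻¹) * ‖x‖ :=
        mul_le_mul_of_nonneg_right (hb x) (norm_nonneg _)
    _ = C * (‖x‖ * ((1 + ‖x‖ ^ 2) ^ 2)⁻¹) := by ring

theorem BM_f (hf : Continuous f) (hb : ∀ x, |f x| ≤ C * ((1 + ‖x‖ ^ 2) ^ 2)⁻¹) : BM f C := by
  refine ⟨hf.measurable, fun x => (hb x).trans ?_⟩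
  refine mul_le_of_le_one_right (decC hb) (inv_le_one_of_one_le₀ ?_)
  nlinarith [sq_nonneg ‖x‖, sq_nonneg (‖x‖ ^ 2)]

/-- the gradient of the bump -/
noncomputable def D1 : Eu 2 → (Eu 2 →L[ℝ] ℝ) := fderiv ℝ (sig : Eu 2 → ℝ)

theorem D1_cont : Continuous D1 := (contDiff_sig.of_le (by norm_num)).continuous_fderiv one_ne_zero

theorem D1_supp : HasCompactSupport D1 := hasCompactSupport_sig.fderiv (𝕜 := ℝ)

theorem D1_int : Integrable D1 := D1_cont.integrable_of_hasCompactSupport D1_supp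

theorem D1_apply (y v : Eu 2) : D1 y v = -rho y * inner ℝ y v := fderiv_sig y v

/-- decay of the averages -/
theorem J_dec (hf : Continuous f) (hb : ∀ x, |f x| ≤ C * ((1 + ‖x‖ ^ 2) ^ 2)⁻¹) :
    ∃ K : ℝ, 0 ≤ K ∧ ∀ s : ℝ, 0 < s → ∀ x, ‖J D1 f s x‖ ≤ K * (1 + s ^ 2)⁻¹ := by
  obtain ⟨B, hB⟩ := D1_supp.exists_bound_of_continuous D1_cont
  have hB0 : 0 ≤ B := (norm_nonneg _).trans (hB 0)
  have hC := decC hb
  refine ⟨C * (∫ y, ‖D1 y‖) + B * ∫ y, |f y|, by positivity, fun s hs x => ?_⟩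
  have h1 := (BM_f hf hb).norm_J_le D1_int s x
  have h2 := Pool.Agent.K3h22.GS.norm_J_le_sq hB (integrable_f hf hb) hs x
  rw [← div_eq_mul_inv, le_div_iff₀ (by positivity)]
  have h3 : ‖J D1 f s x‖ * s ^ 2 ≤ B * ∫ y, |f y| := by
    rw [← div_eq_inv_mul, le_div_iff₀ (by positivity)] at h2
    exact h2
  linarith

theorem J_meas (hf : Continuous f) (x : Eu 2) : StronglyMeasurable (fun s : ℝ => J D1 f s x) :=
  stronglyMeasurable_J D1_cont hf.measurable x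

theorem J_intOn (hf : Continuous f) (hb : ∀ x, |f x| ≤ C * ((1 + ‖x‖ ^ 2) ^ 2)⁻¹) (x : Eu 2) :
    IntegrableOn (fun s : ℝ => J D1 f s x) (Ioi 0) := by
  obtain ⟨K, hK0, hK⟩ := J_dec hf hb
  refine Integrable.mono' ((integrable_inv_one_add_sq.const_mul K).integrableOn)
    (J_meas hf x).aestronglyMeasurable ?_
  exact (ae_restrict_iff' measurableSet_Ioi).2 (Eventually.of_forall fun s hs => hK s hs x)

/-- formula for the derivative of the potential -/
theorem fderiv_Tp (hf : Continuous f) (hb : ∀ x, |f x| ≤ C * ((1 + ‖x‖ ^ 2) ^ 2)⁻¹) (x : Eu 2) :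
    fderiv ℝ (Tp f) x = ∫ s in Ioi (0 : ℝ), J D1 f s x := by
  have hbm := BM_f hf hb
  have hi := integrable_f hf hb
  have hw : Continuous (fun s : ℝ => 1 - 0 * s ^ 2) := by fun_prop
  have hs1 : ContDiff ℝ 1 (sig : Eu 2 → ℝ) := contDiff_sig.of_le (by norm_num)
  have h1 : HasFDerivAt (Npot 0 1 f)
      (-(Pw (fderiv ℝ (sig : Eu 2 → ℝ)) (fun s : ℝ => 1 - 0 * s ^ 2) 1 f x)) x :=
    hasFDerivAt_Pw hs1 hasCompactSupport_sig hbm hw one_pos x
  have h2 := Pool.Agent.K3h22.GS.hasFDerivAt_Hf hbm hi x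
  rw [Pool.Agent.K3h22.GS.Tp_eq]
  refine ((h1.const_sub (Npot 0 1 f 0)).sub h2).fderiv.trans ?_
  rw [Pool.Agent.K3h22.GS.Hf1, neg_neg, sub_neg_eq_add]
  have hI := J_intOn hf hb x
  rw [← intervalIntegral.integral_interval_add_Ioi (b := 1) hI
    (hI.mono_set (Ioi_subset_Ioi zero_le_one))]
  congr 1
  rw [Pw]
  simp only [zero_mul, sub_zero, one_smul]
  rfl

theorem J_joint (hf : Continuous f) :
    StronglyMeasurable (fun p : Eu 2 × ℝ => J D1 f p.2 p.1) := by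
  unfold J
  apply StronglyMeasurable.integral_prod_right
    (f := fun (p : Eu 2 × ℝ) (y : Eu 2) => f (p.1 + p.2 • y) • D1 y)
  have h1 : Continuous (fun q : (Eu 2 × ℝ) × Eu 2 => f (q.1.1 + q.1.2 • q.2) • D1 q.2) :=
    (hf.comp (by fun_prop)).smul (D1_cont.comp continuous_snd)
  exact h1.stronglyMeasurable

/-- the radial average -/
noncomputable def hh (f : Eu 2 → ℝ) (x : Eu 2) (s : ℝ) : ℝ := f x * (J D1 f s x) x

theorem hh_joint (hf : Continuous f) : StronglyMeasurable (fun p : Eu 2 × ℝ => hh f p.1 p.2) := by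
  unfold hh
  refine (hf.comp continuous_fst).stronglyMeasurable.mul ?_
  have h := (J_joint hf).prodMk (measurable_fst (α := Eu 2) (β := ℝ)).stronglyMeasurable
  have hc : Continuous (fun r : (Eu 2 →L[ℝ] ℝ) × Eu 2 => r.1 r.2) := by fun_prop
  exact hc.comp_stronglyMeasurable h

theorem hh_integrable (hf : Continuous f) (hb : ∀ x, |f x| ≤ C * ((1 + ‖x‖ ^ 2) ^ 2)⁻¹) :
    Integrable (Function.uncurry (hh f)) ((volume : Measure (Eu 2)).prod (volume.restrict (Ioi (0 : ℝ)))) := by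
  obtain ⟨K, hK0, hK⟩ := J_dec hf hb
  have h1 : Integrable (fun p : Eu 2 × ℝ => (|f p.1| * ‖p.1‖) * (K * (1 + p.2 ^ 2)⁻¹))
      ((volume : Measure (Eu 2)).prod (volume.restrict (Ioi (0 : ℝ)))) :=
    (integrable_xf hf hb).mul_prod ((integrable_inv_one_add_sq.const_mul K).integrableOn (s := Ioi 0))
  refine h1.mono' (hh_joint hf).aestronglyMeasurable ?_
  have h2 : ∀ᵐ p : Eu 2 × ℝ ∂((volume : Measure (Eu 2)).prod (volume.restrict (Ioi (0 : ℝ)))),
      p.2 ∈ Ioi (0 : ℝ) := by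
    have h3 : ∀ᵐ s ∂(volume.restrict (Ioi (0 : ℝ))), s ∈ Ioi (0 : ℝ) :=
      ae_restrict_mem measurableSet_Ioi
    exact (Measure.quasiMeasurePreserving_snd (μ := (volume : Measure (Eu 2)))
      (ν := volume.restrict (Ioi (0 : ℝ)))).ae h3
  filter_upwards [h2] with p hp
  rw [Function.uncurry, hh, norm_mul, Real.norm_eq_abs, mul_assoc]
  refine mul_le_mul_of_nonneg_left ?_ (abs_nonneg _)
  calc ‖(J D1 f p.2 p.1) p.1‖ ≤ ‖J D1 f p.2 p.1‖ * ‖p.1‖ := ContinuousLinearMap.le_opNorm _ _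
    _ ≤ (K * (1 + p.2 ^ 2)⁻¹) * ‖p.1‖ := mul_le_mul_of_nonneg_right (hK p.2 hp p.1) (norm_nonneg _)
    _ = ‖p.1‖ * (K * (1 + p.2 ^ 2)⁻¹) := mul_comm _ _

theorem swap1 (hf : Continuous f) (hb : ∀ x, |f x| ≤ C * ((1 + ‖x‖ ^ 2) ^ 2)⁻¹) :
    ∫ x, f x * fderiv ℝ (Tp f) x x = ∫ s in Ioi (0 : ℝ), ∫ x, hh f x s := by
  have h1 : ∀ x, f x * fderiv ℝ (Tp f) x x = ∫ s in Ioi (0 : ℝ), hh f x s := by
    intro x
    rw [fderiv_Tp hf hb, ContinuousLinearMap.integral_apply (J_intOn hf hb x)]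
    unfold hh
    rw [integral_const_mul]
  simp only [h1]
  exact integral_integral_swap (hh_integrable hf hb)

theorem rho_neg (y : Eu 2) : rho (-y) = rho y := by
  simp only [rho, rho0, norm_neg]

/-- the double integral at scale `s` -/
theorem scale (hf : Continuous f) (hb : ∀ x, |f x| ≤ C * ((1 + ‖x‖ ^ 2) ^ 2)⁻¹) {s : ℝ}
    (hs : 0 < s) :
    2 * ∫ x, hh f x s = ∫ p : Eu 2 × Eu 2, f p.1 * f p.2 * q s (p.2 - p.1) := by
  obtain ⟨B, hB⟩ := D1_supp.exists_bound_of_continuous D1_cont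
  set H : Eu 2 × Eu 2 → ℝ := fun p => f p.1 * (f p.2 * D1 (-(s⁻¹ • (p.1 - p.2))) p.1) with hH
  have hHc : Continuous H := by
    have h1 : Continuous (fun p : Eu 2 × Eu 2 => D1 (-(s⁻¹ • (p.1 - p.2)))) :=
      D1_cont.comp (by fun_prop)
    have h2 : Continuous (fun p : Eu 2 × Eu 2 => D1 (-(s⁻¹ • (p.1 - p.2))) p.1) :=
      h1.clm_apply continuous_fst
    exact (hf.comp continuous_fst).mul ((hf.comp continuous_snd).mul h2)
  have hHi : Integrable H := by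
    have h1 : Integrable (fun p : Eu 2 × Eu 2 => (|f p.1| * ‖p.1‖) * (B * |f p.2|)) :=
      (integrable_xf hf hb).mul_prod ((integrable_f hf hb).abs.const_mul B)
    refine h1.mono' hHc.aestronglyMeasurable (Eventually.of_forall fun p => ?_)
    have h2 : ‖D1 (-(s⁻¹ • (p.1 - p.2))) p.1‖ ≤ B * ‖p.1‖ :=
      (ContinuousLinearMap.le_opNorm _ _).trans (mul_le_mul_of_nonneg_right (hB _) (norm_nonneg _))
    rw [hH]
    simp only [norm_mul, Real.norm_eq_abs] at h2 ⊢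
    calc |f p.1| * (|f p.2| * |D1 (-(s⁻¹ • (p.1 - p.2))) p.1|)
        ≤ |f p.1| * (|f p.2| * (B * ‖p.1‖)) := by gcongr
      _ = |f p.1| * ‖p.1‖ * (B * |f p.2|) := by ring
  have h1 : ∀ x, hh f x s = (s ^ 2)⁻¹ * ∫ t, H (x, t) := by
    intro x
    rw [hh, J_eq_conv D1 f hs x, _root_.smul_apply]
    have hi : Integrable (fun t => f t • D1 (-(s⁻¹ • (x - t)))) := by
      refine ((integrable_f hf hb).abs.const_mul B).mono' ?_ (Eventually.of_forall fun t => ?_)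
      · exact (hf.smul (D1_cont.comp (by fun_prop))).aestronglyMeasurable
      · rw [norm_smul, mul_comm]
        exact mul_le_mul_of_nonneg_right (hB _) (norm_nonneg _)
    rw [ContinuousLinearMap.integral_apply hi]
    simp only [hH, _root_.smul_apply, smul_eq_mul]
    rw [integral_const_mul]
    ring
  have h2 : ∫ x, hh f x s = (s ^ 2)⁻¹ * ∫ p, H p := by
    simp only [h1]
    rw [integral_const_mul, Measure.volume_eq_prod, integral_prod H hHi]
  have h3 : ∫ p : Eu 2 × Eu 2, H p.swap = ∫ p, H p := by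
    rw [Measure.volume_eq_prod]
    exact integral_prod_swap H
  have hHs : Integrable (fun p : Eu 2 × Eu 2 => H p.swap) := by
    rw [Measure.volume_eq_prod] at hHi ⊢
    exact hHi.swap
  have h4 : 2 * ∫ p, H p = ∫ p : Eu 2 × Eu 2, (H p + H p.swap) := by
    rw [integral_add hHi hHs, h3]; ring
  have h5 : 2 * ∫ x, hh f x s = (s ^ 2)⁻¹ * ∫ p : Eu 2 × Eu 2, (H p + H p.swap) := by
    rw [h2, ← h4]; ring
  rw [h5, ← integral_const_mul]
  congr 1
  funext p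
  obtain ⟨x, t⟩ := p
  simp only [hH, Prod.swap, D1_apply, q]
  have e1 : -(s⁻¹ • (x - t)) = s⁻¹ • (t - x) := by rw [← smul_neg, neg_sub]
  have e2 : -(s⁻¹ • (t - x)) = -(s⁻¹ • (t - x)) := rfl
  rw [e1, rho_neg, inner_neg_left]
  set y := s⁻¹ • (t - x) with hy
  have e3 : t - x = s • y := by rw [hy, smul_smul, mul_inv_cancel₀ hs.ne', one_smul]
  have e4 : inner ℝ y t - inner ℝ y x = s * ‖y‖ ^ 2 := by
    rw [← inner_sub_right, e3, inner_smul_right, real_inner_self_eq_norm_sq]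
  have e5 : f x * (f t * (-rho y * inner ℝ y x)) + f t * (f x * (-rho y * -inner ℝ y t)) =
      f x * f t * rho y * (inner ℝ y t - inner ℝ y x) := by ring
  rw [e5, e4]
  field_simp

theorem ff_int (hf : Continuous f) (hb : ∀ x, |f x| ≤ C * ((1 + ‖x‖ ^ 2) ^ 2)⁻¹) :
    Integrable (fun p : Eu 2 × Eu 2 => f p.1 * f p.2) :=
  (integrable_f hf hb).mul_prod (integrable_f hf hb)

/-- the triple integrand -/
noncomputable def QQ (f : Eu 2 → ℝ) (p : Eu 2 × Eu 2) (s : ℝ) : ℝ := f p.1 * f p.2 * q s (p.2 - p.1)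

theorem QQ_meas (hf : Continuous f) : Measurable (Function.uncurry (QQ f)) := by
  have h1 : Measurable (fun r : (Eu 2 × Eu 2) × ℝ => f r.1.1 * f r.1.2) :=
    ((hf.comp (by fun_prop : Continuous (fun r : (Eu 2 × Eu 2) × ℝ => r.1.1))).mul
      (hf.comp (by fun_prop : Continuous (fun r : (Eu 2 × Eu 2) × ℝ => r.1.2)))).measurable
  exact h1.mul measurable_q

theorem q_le_sig (w : Eu 2) : ∫ s in Ioi (0 : ℝ), |q s w| ≤ sig (0 : Eu 2) := by
  have h1 : ∫ s in Ioi (0 : ℝ), |q s w| = ∫ s in Ioi (0 : ℝ), q s w :=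
    setIntegral_congr_fun measurableSet_Ioi fun s hs => abs_of_nonneg (q_nonneg hs w)
  rw [h1]
  rcases eq_or_ne w 0 with rfl | hw
  · simp only [q_w_zero, integral_zero]
    exact sig_nonneg _
  · exact (q_integral hw).le

theorem QQ_integrable (hf : Continuous f) (hb : ∀ x, |f x| ≤ C * ((1 + ‖x‖ ^ 2) ^ 2)⁻¹) :
    Integrable (Function.uncurry (QQ f))
      ((volume : Measure (Eu 2 × Eu 2)).prod (volume.restrict (Ioi (0 : ℝ)))) := by
  rw [integrable_prod_iff (QQ_meas hf).aestronglyMeasurable]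
  constructor
  · exact Eventually.of_forall fun p => (q_integrableOn (p.2 - p.1)).const_mul (f p.1 * f p.2)
  · refine ((ff_int hf hb).abs.mul_const (sig (0 : Eu 2))).mono' ?_
      (Eventually.of_forall fun p => ?_)
    · exact (QQ_meas hf).aestronglyMeasurable.norm.integral_prod_right'
    · rw [Real.norm_of_nonneg (integral_nonneg fun _ => norm_nonneg _)]
      have e1 : ∀ s : ℝ, ‖Function.uncurry (QQ f) (p, s)‖ = |f p.1 * f p.2| * |q s (p.2 - p.1)| := by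
        intro s
        rw [Function.uncurry, QQ, Real.norm_eq_abs, abs_mul]
      simp only [e1]
      rw [integral_const_mul]
      exact mul_le_mul_of_nonneg_left (q_le_sig _) (abs_nonneg _)

theorem QQ_value (hf : Continuous f) (hb : ∀ x, |f x| ≤ C * ((1 + ‖x‖ ^ 2) ^ 2)⁻¹) :
    ∫ p : Eu 2 × Eu 2, ∫ s in Ioi (0 : ℝ), QQ f p s = sig (0 : Eu 2) * (∫ x, f x) ^ 2 := by
  have hI : Integrable (fun p : Eu 2 × Eu 2 => ∫ s in Ioi (0 : ℝ), QQ f p s)
      ((volume : Measure (Eu 2)).prod (volume : Measure (Eu 2))) :=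
    (QQ_integrable hf hb).integral_prod_left
  rw [Measure.volume_eq_prod, integral_prod _ hI]
  have h1 : ∀ x : Eu 2, ∫ t, ∫ s in Ioi (0 : ℝ), QQ f (x, t) s =
      f x * (sig (0 : Eu 2) * ∫ t, f t) := by
    intro x
    have h2 : ∀ᵐ t : Eu 2, ∫ s in Ioi (0 : ℝ), QQ f (x, t) s = f x * sig (0 : Eu 2) * f t := by
      have h3 : ∀ᵐ t : Eu 2, t ∈ ({x} : Set (Eu 2))ᶜ :=
        compl_mem_ae_iff.2 (measure_singleton x)
      filter_upwards [h3] with t ht
      have ht' : t - x ≠ 0 := sub_ne_zero.2 ht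
      simp only [QQ]
      rw [integral_const_mul, q_integral ht']
      ring
    rw [integral_congr_ae h2, integral_const_mul]
    ring
  simp only [h1]
  rw [integral_mul_const]
  ring

theorem t_X5 : St_X5 := by
  intro f C hf hb
  have hfc := hf.continuous
  rw [swap1 hfc hb]
  have h1 : 2 * ∫ s in Ioi (0 : ℝ), ∫ x, hh f x s =
      ∫ s in Ioi (0 : ℝ), ∫ p : Eu 2 × Eu 2, QQ f p s := by
    rw [← integral_const_mul]
    exact setIntegral_congr_fun measurableSet_Ioi fun s hs => scale hfc hb hs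
  have h2 : ∫ s in Ioi (0 : ℝ), ∫ p : Eu 2 × Eu 2, QQ f p s =
      ∫ p : Eu 2 × Eu 2, ∫ s in Ioi (0 : ℝ), QQ f p s :=
    (integral_integral_swap (QQ_integrable hfc hb)).symm
  have h3 : ∫ s in Ioi (0 : ℝ), ∫ x, hh f x s = sig (0 : Eu 2) * (∫ x, f x) ^ 2 / 2 := by
    rw [← QQ_value hfc hb, ← h2, ← h1]; ring
  rw [h3, sig_zero]
  have := Real.pi_pos
  field_simp
  ring

end Pool.Agent.K3h85.NX
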